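import Pool.Agent.Helper32.Grimm.Defs

/-!
# Counting blocks without a Grimm assignment
-/

set_option autoImplicit false

namespace Pool.Agent.Helper32.Grimm

open Finset

/-- a failing block contains a smooth number -/
theorem exists_smooth {n k : ℕ} (h : ¬ HasAssignment n k) :
    ∃ i < k, n + i ∈ Nat.smoothNumbers k := by
  classical
  by_contra hcon
  push Not at hcon
  apply h
  have h1 : ∀ i, ∃ q, i < k → q.Prime ∧ q ∣ n + i ∧ k ≤ q := by
    intro i
    by_cases hi : i < k
    · have h2 := hcon i hi
      rw [Nat.mem_smoothNumbers'] at h2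
      push Not at h2
      obtain ⟨q, hq, hd, hk⟩ := h2
      exact ⟨q, fun _ => ⟨hq, hd, hk⟩⟩
    · exact ⟨0, fun h' => absurd h' hi⟩
  choose f hf using h1
  refine ⟨f, fun i hi => ⟨(hf i hi).1, (hf i hi).2.1⟩, ?_⟩
  intro i hi j hj hij
  obtain ⟨_, di, ki⟩ := hf i hi
  obtain ⟨_, dj, _⟩ := hf j hj
  rw [← hij] at dj
  rcases lt_trichotomy i j with hlt | heq | hgt
  · have h3 : f i ∣ (n + j) - (n + i) := Nat.dvd_sub dj di
    have h4 : f i ≤ (n + j) - (n + i) := Nat.le_of_dvd (by omega) h3
    omega
  · exact heq
  · have h3 : f i ∣ (n + i) - (n + j) := Nat.dvd_sub di dj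
    have h4 : f i ≤ (n + i) - (n + j) := Nat.le_of_dvd (by omega) h3
    omega

theorem smooth_mono {a b m : ℕ} (hab : a ≤ b) (h : m ∈ Nat.smoothNumbers a) :
    m ∈ Nat.smoothNumbers b := Nat.smoothNumbers_mono hab h

/-- the number of bad gaps -/
theorem card_badPrimes_le (x K : ℕ) (hK : 1 ≤ K) :
    (badPrimes x).card ≤ (Nat.smoothNumbersUpTo x K).card + x / K := by
  classical
  have hnext : ∀ p, ∃ q, p ∈ badPrimes x → q ≤ x ∧ Consecutive p q ∧
      ∃ n k, p < n ∧ n + k ≤ q ∧ ¬ HasAssignment n k := by
    intro p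
    by_cases hp : p ∈ badPrimes x
    · rw [badPrimes, mem_filter] at hp
      obtain ⟨_, q, hq, h1, h2⟩ := hp
      exact ⟨q, fun _ => ⟨hq, h1, h2⟩⟩
    · exact ⟨0, fun h => absurd h hp⟩
  choose q hq using hnext
  -- two gaps are disjoint
  have hord : ∀ p p', p ∈ badPrimes x → p' ∈ badPrimes x → p < p' → q p ≤ p' := by
    intro p p' hp hp' hlt
    by_contra hcon
    push Not at hcon
    exact (hq p hp).2.1.2.2.2 p' hlt hcon (hq p' hp').2.1.1
  rw [← Finset.card_filter_add_card_filter_not (s := badPrimes x) (fun p => q p ≤ p + K)]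
  apply Nat.add_le_add
  · -- short gaps
    have hex : ∀ p, ∃ m, p ∈ (badPrimes x).filter (fun p => q p ≤ p + K) →
        p < m ∧ m < q p ∧ m ∈ Nat.smoothNumbers K := by
      intro p
      by_cases hp : p ∈ (badPrimes x).filter (fun p => q p ≤ p + K)
      · rw [mem_filter] at hp
        obtain ⟨hp1, hp2⟩ := hp
        obtain ⟨hqx, hc, n, k, hn, hk, hb⟩ := hq p hp1
        obtain ⟨i, hi, hm⟩ := exists_smooth hb
        refine ⟨n + i, fun _ => ⟨by omega, by omega, ?_⟩⟩
        exact smooth_mono (by omega) hm
      · exact ⟨0, fun h => absurd h hp⟩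
    choose m hm using hex
    apply card_le_card_of_injOn m
    · intro p hp
      have hp' := mem_coe.1 hp
      obtain ⟨h1, h2, h3⟩ := hm p hp'
      rw [mem_coe, Nat.mem_smoothNumbersUpTo]
      have := (hq p (mem_filter.1 hp').1).1
      exact ⟨by omega, h3⟩
    · intro p hp p' hp' hpp
      have hp1 := mem_coe.1 hp
      have hp1' := mem_coe.1 hp'
      obtain ⟨h1, h2, h3⟩ := hm p hp1
      obtain ⟨h1', h2', h3'⟩ := hm p' hp1'
      rcases lt_trichotomy p p' with hlt | heq | hgt
      · have := hord p p' (mem_filter.1 hp1).1 (mem_filter.1 hp1').1 hlt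
        omega
      · exact heq
      · have := hord p' p (mem_filter.1 hp1').1 (mem_filter.1 hp1).1 hgt
        omega
  · -- long gaps
    have : ((badPrimes x).filter (fun p => ¬ q p ≤ p + K)).card ≤ (range (x / K)).card := by
      apply card_le_card_of_injOn (fun p => p / K)
      · intro p hp
        have hp' := mem_coe.1 hp
        rw [mem_filter] at hp'
        obtain ⟨hp1, hp2⟩ := hp'
        have h1 := (hq p hp1).1
        rw [mem_coe, mem_range]
        have h2 : p + K ≤ x := by omega
        have h3 : (p + K) / K ≤ x / K := Nat.div_le_div_right h2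
        rw [Nat.add_div_right _ (by omega)] at h3
        exact h3
      · intro p hp p' hp' hpp
        have hp1 := mem_coe.1 hp
        have hp1' := mem_coe.1 hp'
        rw [mem_filter] at hp1 hp1'
        simp only at hpp
        rcases lt_trichotomy p p' with hlt | heq | hgt
        · have h1 := hord p p' hp1.1 hp1'.1 hlt
          have h2 : p + K ≤ p' := by omega
          have h3 : (p + K) / K ≤ p' / K := Nat.div_le_div_right h2
          rw [Nat.add_div_right _ (by omega)] at h3
          omega
        · exact heq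
        · have h1 := hord p' p hp1'.1 hp1.1 hgt
          have h2 : p' + K ≤ p := by omega
          have h3 : (p' + K) / K ≤ p / K := Nat.div_le_div_right h2
          rw [Nat.add_div_right _ (by omega)] at h3
          omega
    rwa [card_range] at this

/-- the number of starting points of bad blocks of length at most `K` -/
theorem card_badStarts_le (x K : ℕ) :
    (badStarts x K).card ≤ (Nat.smoothNumbersUpTo (x + K) K).card * K := by
  classical
  have hsub : badStarts x K ⊆ (Nat.smoothNumbersUpTo (x + K) K).biUnion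
      (fun m => (range K).image fun i => m - i) := by
    intro n hn
    rw [badStarts, mem_filter] at hn
    obtain ⟨hn1, k, hk, hn2, hb⟩ := hn
    obtain ⟨i, hi, hm⟩ := exists_smooth hb
    rw [mem_biUnion]
    rw [mem_Icc] at hn1
    refine ⟨n + i, ?_, ?_⟩
    · rw [Nat.mem_smoothNumbersUpTo]
      exact ⟨by omega, smooth_mono hk hm⟩
    · rw [mem_image]
      exact ⟨i, mem_range.2 (by omega), by omega⟩
  refine (card_le_card hsub).trans ?_
  refine Finset.card_biUnion_le_card_mul _ _ _ fun m _ => ?_
  exact card_image_le.trans (by rw [card_range])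

end Pool.Agent.Helper32.Grimm
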