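import Pool.Agent.Helper32.Grimm.Rankin
import Pool.Agent.Helper32.Grimm.Count

/-!
# Asymptotic form
-/

set_option autoImplicit false

namespace Pool.Agent.Helper32.Grimm

open Finset Filter Real

/-- `L(x) = √(log x · log log x)` -/
noncomputable def LL (x : ℝ) : ℝ := √(Real.log x * Real.log (Real.log x))

theorem log_le_rpow {r c : ℝ} (hr : 0 < r) (hc : 0 < c) :
    ∀ᶠ l : ℝ in atTop, Real.log l ≤ c * l ^ r := by
  have h := (isLittleO_log_rpow_atTop hr).bound hc
  filter_upwards [h, eventually_ge_atTop 1] with l hl h1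
  rw [Real.norm_eq_abs, Real.norm_eq_abs, abs_of_nonneg (Real.log_nonneg h1),
    abs_of_nonneg (by positivity)] at hl
  exact hl

theorem const_le_rpow {r c : ℝ} (hr : 0 < r) (hc : 0 < c) (d : ℝ) :
    ∀ᶠ l : ℝ in atTop, d ≤ c * l ^ r := by
  filter_upwards [(tendsto_rpow_atTop hr).eventually_ge_atTop (d / c)] with l hl
  rwa [div_le_iff₀' hc] at hl

/-- the growth facts in terms of `l = log x`, `M = √(l log l)` -/
theorem facts {a ε δ : ℝ} (ha : 0 < a) (hε : 0 < ε) (hδ : 0 < δ) (hδ1 : δ < 1) :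
    ∀ᶠ l : ℝ in atTop, 1 ≤ l ∧ 1 ≤ Real.log l ∧
      (1 - δ) * Real.log l + Real.log 2 ≤ a * √(l * Real.log l) ∧
      a * √(l * Real.log l) ≤ l ∧
      4 * (Real.exp ((1 - δ) / 2 * Real.log l) * (Real.log l + 3.4)) ≤ ε / 4 * √(l * Real.log l) ∧
      Real.log 3 ≤ ε / 2 * √(l * Real.log l) ∧ 1 ≤ a * √(l * Real.log l) := by
  have hh : (0 : ℝ) < 1 / 2 := by norm_num
  filter_upwards [eventually_ge_atTop 1, Real.tendsto_log_atTop.eventually_ge_atTop 1,
    log_le_rpow hh (show 0 < a / 2 by positivity),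
    const_le_rpow hh (show 0 < a / 2 by positivity) (Real.log 2),
    log_le_rpow (show (0 : ℝ) < 1 by norm_num) (show 0 < 1 / a ^ 2 by positivity),
    log_le_rpow (show 0 < δ / 2 by positivity) (show 0 < ε / 32 by positivity),
    const_le_rpow (show 0 < δ / 2 by positivity) (show 0 < ε / 32 by positivity) 3.4,
    const_le_rpow hh (show 0 < ε / 2 by positivity) (Real.log 3),
    const_le_rpow hh ha 1]
    with l h1 h2 h3 h4 h5 h6 h7 h8 h9
  have hl0 : 0 < l := by linarith
  have hM : √l ≤ √(l * Real.log l) := Real.sqrt_le_sqrt (by nlinarith)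
  have hsq : l ^ (1 / 2 : ℝ) = √l := (Real.sqrt_eq_rpow l).symm
  rw [hsq] at h3 h4 h8 h9
  refine ⟨h1, h2, ?_, ?_, ?_, ?_, ?_⟩
  · nlinarith
  · rw [Real.rpow_one] at h5
    have h10 : √(l * Real.log l) ≤ l / a := by
      rw [Real.sqrt_le_left (by positivity)]
      have : (l / a) ^ 2 = l * (1 / a ^ 2 * l) := by field_simp
      rw [this]
      exact mul_le_mul_of_nonneg_left h5 hl0.le
    calc a * √(l * Real.log l) ≤ a * (l / a) := mul_le_mul_of_nonneg_left h10 ha.le
      _ = l := by field_simp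
  · have h11 : Real.exp ((1 - δ) / 2 * Real.log l) = l ^ ((1 - δ) / 2) := by
      rw [Real.rpow_def_of_pos hl0, mul_comm]
    have h12 : l ^ ((1 - δ) / 2) * l ^ (δ / 2) = √l := by
      rw [← Real.rpow_add hl0, Real.sqrt_eq_rpow]
      congr 1
      ring
    rw [h11]
    have h13 : Real.log l + 3.4 ≤ ε / 16 * l ^ (δ / 2) := by linarith
    have h14 : 0 ≤ l ^ ((1 - δ) / 2) := by positivity
    calc 4 * (l ^ ((1 - δ) / 2) * (Real.log l + 3.4))
        ≤ 4 * (l ^ ((1 - δ) / 2) * (ε / 16 * l ^ (δ / 2))) := by gcongr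
      _ = ε / 4 * (l ^ ((1 - δ) / 2) * l ^ (δ / 2)) := by ring
      _ = ε / 4 * √l := by rw [h12]
      _ ≤ ε / 4 * √(l * Real.log l) := by gcongr
  · calc Real.log 3 ≤ ε / 2 * √l := h8
      _ ≤ _ := by gcongr
  · calc 1 ≤ a * √l := h9
      _ ≤ _ := by gcongr

/-- Smooth numbers: `Ψ(2x, exp(a L)) ≤ x exp(-(1/(2a) - ε) L)`. -/
theorem smooth_asymp {a ε : ℝ} (ha : 0 < a) (hε : 0 < ε) :
    ∀ᶠ x : ℕ in atTop, ((Nat.smoothNumbersUpTo (2 * x) ⌊Real.exp (a * LL x)⌋₊).card : ℝ) ≤
        x * Real.exp (-((1 / (2 * a) - ε) * LL x)) ∧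
      (⌊Real.exp (a * LL x)⌋₊ : ℝ) ≤ x ∧ Real.log 3 ≤ ε / 2 * LL x ∧
      Real.exp (a * LL x) ≤ 2 * ⌊Real.exp (a * LL x)⌋₊ ∧ 1 ≤ ⌊Real.exp (a * LL x)⌋₊ := by
  set δ : ℝ := min (1 / 2) (a * ε / 2) with hδ
  have hδ0 : 0 < δ := by rw [hδ]; positivity
  have hδ1 : δ < 1 := lt_of_le_of_lt (min_le_left _ _) (by norm_num)
  have hδ2 : δ ≤ a * ε / 2 := min_le_right _ _
  have hlog : Tendsto (fun x : ℕ => Real.log (x : ℝ)) atTop atTop :=
    Real.tendsto_log_atTop.comp tendsto_natCast_atTop_atTop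
  filter_upwards [hlog.eventually (facts ha hε hδ0 hδ1), eventually_ge_atTop 3] with x hx hx3
  have hLL : LL x = √(Real.log x * Real.log (Real.log x)) := rfl
  rw [← hLL] at hx
  set l : ℝ := Real.log x with hl
  set M : ℝ := LL x with hM
  obtain ⟨f1, f2, f3, f4, f5, f6, f7⟩ := hx
  have hxr : (3 : ℝ) ≤ x := by exact_mod_cast hx3
  have hM2 : M * M = l * Real.log l := by
    rw [hLL]
    exact Real.mul_self_sqrt (by positivity)
  have hM0 : 0 < M := by
    by_contra hcon
    push Not at hcon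
    nlinarith
  set K : ℕ := ⌊Real.exp (a * M)⌋₊ with hK
  have hexp2 : (2 : ℝ) ≤ Real.exp (a * M) := by
    have := Real.add_one_le_exp (a * M)
    linarith
  have hKle : (K : ℝ) ≤ Real.exp (a * M) := Nat.floor_le (by positivity)
  have hKgt : Real.exp (a * M) < K + 1 := Nat.lt_floor_add_one _
  have hK2 : 2 ≤ K := by
    rw [hK]
    exact Nat.le_floor (by exact_mod_cast hexp2)
  have hK2r : (2 : ℝ) ≤ K := by exact_mod_cast hK2
  have hKge : Real.exp (a * M) ≤ 2 * K := by linarith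
  have hexpx : Real.exp (a * M) ≤ x := by
    calc Real.exp (a * M) ≤ Real.exp l := Real.exp_le_exp.2 f4
      _ = x := Real.exp_log (by linarith)
  refine ⟨?_, hKle.trans hexpx, f6, hKge, by omega⟩
  -- the logarithm of K
  have hlK1 : Real.log K ≤ a * M := by
    rw [Real.log_le_iff_le_exp (by linarith)]
    exact hKle
  have hlK2 : a * M - Real.log 2 ≤ Real.log K := by
    have h1 : Real.log (Real.exp (a * M)) ≤ Real.log (2 * K) :=
      Real.log_le_log (Real.exp_pos _) hKge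
    rw [Real.log_exp, Real.log_mul (by norm_num) (by linarith)] at h1
    linarith
  have hlK0 : 0 < Real.log K := Real.log_pos (by linarith)
  set A : ℝ := (1 - δ) / 2 * Real.log l with hA
  have hA0 : 0 ≤ A := by
    rw [hA]
    have : 0 < 1 - δ := by linarith
    positivity
  have hAK : A ≤ Real.log K / 2 := by rw [hA]; linarith
  have h2x : 1 ≤ 2 * x := by omega
  have hmain := smooth_le (2 * x) K h2x hK2 hA0 hAK
  refine hmain.trans ?_
  push_cast
  have hlog2x : l ≤ Real.log (2 * x) := by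
    rw [Real.log_mul (by norm_num) (by linarith)]
    have : 0 ≤ Real.log 2 := Real.log_nonneg (by norm_num)
    linarith
  have e1 : (1 - δ) / (2 * a) * M ≤ A * Real.log (2 * x) / Real.log K := by
    rw [le_div_iff₀ hlK0]
    calc (1 - δ) / (2 * a) * M * Real.log K ≤ (1 - δ) / (2 * a) * M * (a * M) := by
          apply mul_le_mul_of_nonneg_left hlK1
          have : 0 < 1 - δ := by linarith
          positivity
      _ = (1 - δ) / 2 * (M * M) := by field_simp
      _ = A * l := by rw [hM2, hA]; ring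
      _ ≤ A * Real.log (2 * x) := mul_le_mul_of_nonneg_left hlog2x hA0
  have e2 : Real.log (Real.log K) ≤ Real.log l :=
    Real.log_le_log hlK0 (hlK1.trans f4)
  have e3 : 4 * (Real.exp A * (Real.log (Real.log K) + 3.4)) ≤ ε / 4 * M := by
    refine le_trans ?_ f5
    gcongr
  have e4 : δ / (2 * a) ≤ ε / 4 := by
    rw [div_le_iff₀ (by positivity)]
    linarith
  have e5 : Real.log 2 ≤ Real.log 3 := Real.log_le_log (by norm_num) (by norm_num)
  have e6 : -(A * Real.log (2 * x) / Real.log K) + 4 * (Real.exp A * (Real.log (Real.log K) + 3.4)) ≤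
      -Real.log 2 + -((1 / (2 * a) - ε) * M) := by
    have e7 : (1 - δ) / (2 * a) * M = 1 / (2 * a) * M - δ / (2 * a) * M := by
      field_simp
    have e8 : δ / (2 * a) * M ≤ ε / 4 * M := mul_le_mul_of_nonneg_right e4 hM0.le
    have e9 : (1 / (2 * a) - ε) * M = 1 / (2 * a) * M - ε * M := by ring
    rw [e9]
    linarith
  calc 2 * (x : ℝ) * Real.exp (-(A * Real.log (2 * x) / Real.log K) +
        4 * (Real.exp A * (Real.log (Real.log K) + 3.4)))
      ≤ 2 * x * Real.exp (-Real.log 2 + -((1 / (2 * a) - ε) * M)) := by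
        apply mul_le_mul_of_nonneg_left (Real.exp_le_exp.2 e6) (by positivity)
    _ = x * Real.exp (-((1 / (2 * a) - ε) * M)) := by
        rw [Real.exp_add, Real.exp_neg, Real.exp_log (by norm_num)]
        ring

theorem smoothUpTo_mono {X Y K : ℕ} (h : X ≤ Y) :
    (Nat.smoothNumbersUpTo X K).card ≤ (Nat.smoothNumbersUpTo Y K).card := by
  apply Finset.card_le_card
  intro m hm
  rw [Nat.mem_smoothNumbersUpTo] at hm ⊢
  exact ⟨hm.1.trans h, hm.2⟩

/-- all blocks of length at most `exp(a L)` -/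
theorem badStarts_asymp {a ε : ℝ} (ha : 0 < a) (hε : 0 < ε) :
    ∀ᶠ x : ℕ in atTop, ((badStarts x ⌊Real.exp (a * LL x)⌋₊).card : ℝ) ≤
        x * Real.exp (-((1 / (2 * a) - a - ε) * LL x)) := by
  filter_upwards [smooth_asymp ha hε] with x hx
  obtain ⟨h1, h2, h3, h4, h5⟩ := hx
  set K := ⌊Real.exp (a * LL x)⌋₊ with hK
  have hKx : K ≤ x := by exact_mod_cast h2
  have h6 := card_badStarts_le x K
  have h7 : (badStarts x K).card ≤ (Nat.smoothNumbersUpTo (2 * x) K).card * K :=
    h6.trans (Nat.mul_le_mul_right _ (smoothUpTo_mono (by omega)))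
  have h8 : ((badStarts x K).card : ℝ) ≤ ((Nat.smoothNumbersUpTo (2 * x) K).card : ℝ) * K := by
    exact_mod_cast h7
  refine h8.trans ?_
  have hKle : (K : ℝ) ≤ Real.exp (a * LL x) := Nat.floor_le (by positivity)
  calc ((Nat.smoothNumbersUpTo (2 * x) K).card : ℝ) * K
      ≤ x * Real.exp (-((1 / (2 * a) - ε) * LL x)) * Real.exp (a * LL x) := by gcongr
    _ = x * Real.exp (-((1 / (2 * a) - a - ε) * LL x)) := by
        rw [mul_assoc, ← Real.exp_add]
        congr 2
        ring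

/-- the number of bad gaps -/
theorem badPrimes_asymp {ε : ℝ} (hε : 0 < ε) :
    ∀ᶠ x : ℕ in atTop, ((badPrimes x).card : ℝ) ≤
        x * Real.exp (-((1 / √2 - ε) * LL x)) := by
  have h2 : (0 : ℝ) < √2 := Real.sqrt_pos.2 (by norm_num)
  have ha : (0 : ℝ) < 1 / √2 := by positivity
  have haa : 1 / (2 * (1 / √2)) = 1 / √2 := by
    have : √2 * √2 = 2 := Real.mul_self_sqrt (by norm_num)
    field_simp
    linarith
  filter_upwards [smooth_asymp ha (show 0 < ε / 2 by positivity), smooth_asymp ha hε] with x hx hx'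
  obtain ⟨h1, _, _, h4, h5⟩ := hx
  obtain ⟨_, _, h3, _, _⟩ := hx'
  rw [haa] at h1
  set a : ℝ := 1 / √2 with hadef
  set K := ⌊Real.exp (a * LL x)⌋₊ with hK
  have hK0 : (0 : ℝ) < K := by exact_mod_cast h5
  have h6 := card_badPrimes_le x K h5
  have h7 : ((badPrimes x).card : ℝ) ≤ ((Nat.smoothNumbersUpTo (2 * x) K).card : ℝ) + x / K := by
    have h8 : (badPrimes x).card ≤ (Nat.smoothNumbersUpTo (2 * x) K).card + x / K :=
      h6.trans (Nat.add_le_add_right (smoothUpTo_mono (by omega)) _)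
    have h9 : ((x / K : ℕ) : ℝ) ≤ (x : ℝ) / K := Nat.cast_div_le
    have h10 : ((badPrimes x).card : ℝ) ≤ ((Nat.smoothNumbersUpTo (2 * x) K).card : ℝ) +
        ((x / K : ℕ) : ℝ) := by exact_mod_cast h8
    linarith
  have hx0 : (0 : ℝ) ≤ x := Nat.cast_nonneg x
  have h11 : (x : ℝ) / K ≤ 2 * x * Real.exp (-((a - ε / 2) * LL x)) := by
    rw [div_le_iff₀ hK0]
    have h12 : Real.exp (-((a - ε / 2) * LL x)) * Real.exp (a * LL x) = Real.exp (ε / 2 * LL x) := by
      rw [← Real.exp_add]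
      congr 1
      ring
    have h13 : 1 ≤ Real.exp (ε / 2 * LL x) := by
      apply Real.one_le_exp
      have : 0 ≤ Real.log 3 := Real.log_nonneg (by norm_num)
      linarith
    have h14 : 1 ≤ 2 * (Real.exp (-((a - ε / 2) * LL x)) * K) := by
      calc (1 : ℝ) ≤ Real.exp (-((a - ε / 2) * LL x)) * Real.exp (a * LL x) := by rw [h12]; exact h13
        _ ≤ Real.exp (-((a - ε / 2) * LL x)) * (2 * K) := by gcongr
        _ = _ := by ring
    nlinarith
  have h15 : (3 : ℝ) ≤ Real.exp (ε / 2 * LL x) := by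
    calc (3 : ℝ) = Real.exp (Real.log 3) := (Real.exp_log (by norm_num)).symm
      _ ≤ _ := Real.exp_le_exp.2 h3
  calc ((badPrimes x).card : ℝ) ≤ x * Real.exp (-((a - ε / 2) * LL x)) +
        2 * x * Real.exp (-((a - ε / 2) * LL x)) := by linarith
    _ = 3 * (x * Real.exp (-((a - ε / 2) * LL x))) := by ring
    _ ≤ Real.exp (ε / 2 * LL x) * (x * Real.exp (-((a - ε / 2) * LL x))) := by gcongr
    _ = x * Real.exp (-((a - ε) * LL x)) := by
        rw [mul_left_comm, ← Real.exp_add]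
        congr 2
        ring

end Pool.Agent.Helper32.Grimm
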