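import Mathlib

/-!
# Definitions for Grimm's problem
-/

set_option autoImplicit false

namespace Pool.Agent.Helper32.Grimm

/-- The block `n, n+1, ..., n+k-1` has a Grimm assignment: pairwise distinct primes
`f 0, ..., f (k-1)` with `f i ∣ n + i`. -/
def HasAssignment (n k : ℕ) : Prop :=
  ∃ f : ℕ → ℕ, (∀ i < k, (f i).Prime ∧ f i ∣ n + i) ∧
    ∀ i < k, ∀ j < k, f i = f j → i = j

/-- `p < q` are consecutive primes. -/
def Consecutive (p q : ℕ) : Prop :=
  p.Prime ∧ q.Prime ∧ p < q ∧ ∀ r, p < r → r < q → ¬ r.Prime

open Classical in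
/-- The primes `p` whose next prime `q` is at most `x` and such that some composite run
`n, ..., n+k-1` inside the gap (`p < n` and `n + k ≤ q`) has no Grimm assignment, i.e. such that
the assertion of Grimm's conjecture fails inside the gap `(p, q)`. -/
noncomputable def badPrimes (x : ℕ) : Finset ℕ :=
  (Finset.range (x + 1)).filter fun p => ∃ q ≤ x, Consecutive p q ∧
    ∃ n k, p < n ∧ n + k ≤ q ∧ ¬ HasAssignment n k

open Classical in
/-- The integers `2 ≤ n ≤ x` for which some block `n, ..., n+k-1` of length `k ≤ K` has no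
Grimm assignment (the members of the block may be prime or composite). -/
noncomputable def badStarts (x K : ℕ) : Finset ℕ :=
  (Finset.Icc 1 x).filter fun n => ∃ k ≤ K, 2 ≤ n ∧ ¬ HasAssignment n k

end Pool.Agent.Helper32.Grimm
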