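import Pool.Agent.Helper32.Grimm.Defs

/-!
# The deficiency bound
-/

set_option autoImplicit false

namespace Pool.Agent.Helper32.Grimm

open Finset

theorem prod_dist (k j : ℕ) (hj : j < k) :
    ∏ i ∈ (range k).erase j, (Int.natAbs ((i : ℤ) - j)) = j.factorial * (k - 1 - j).factorial := by
  classical
  have h1 : (range k).erase j = range j ∪ Ico (j + 1) k := by
    ext i
    simp only [mem_erase, mem_range, mem_union, mem_Ico]
    omega
  have h2 : Disjoint (range j) (Ico (j + 1) k) := by
    rw [disjoint_left]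
    intro i hi hi'
    simp only [mem_range] at hi
    simp only [mem_Ico] at hi'
    omega
  rw [h1, prod_union h2]
  congr 1
  · rw [← Finset.prod_range_reflect, ← Finset.prod_range_add_one_eq_factorial]
    apply prod_congr rfl
    intro i hi
    simp only [mem_range] at hi
    omega
  · rw [Finset.prod_Ico_eq_prod_range, ← Finset.prod_range_add_one_eq_factorial,
      show k - (j + 1) = k - 1 - j by omega]
    apply prod_congr rfl
    intro i hi
    simp only [mem_range] at hi
    omega

theorem prod_dist_dvd (k j : ℕ) (hj : j < k) :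
    ∏ i ∈ (range k).erase j, (Int.natAbs ((i : ℤ) - j)) ∣ (k - 1).factorial := by
  rw [prod_dist k j hj]
  have := Nat.factorial_mul_factorial_dvd_factorial (n := k - 1) (k := j) (by omega)
  exact this

/-- the key divisibility -/
theorem prod_dvd_factorial (n k : ℕ) (hn : 1 ≤ n) (S : Finset ℕ) (hS : S ⊆ range k) (g : ℕ → ℕ)
    (hg : ∀ p : ℕ, p.Prime → (∃ i ∈ S, p ∣ n + i) →
      g p ∈ S ∧ ∀ i ∈ S, (n + i).factorization p ≤ (n + g p).factorization p)
    (T : Finset ℕ) (hT : T ⊆ S) (hTg : ∀ p : ℕ, p.Prime → (∃ i ∈ S, p ∣ n + i) → g p ∉ T) :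
    ∏ i ∈ T, (n + i) ∣ (k - 1).factorial := by
  have hne : ∀ i ∈ T, n + i ≠ 0 := fun i _ => by omega
  have hP : ∏ i ∈ T, (n + i) ≠ 0 := Finset.prod_ne_zero_iff.2 hne
  rw [← Nat.factorization_le_iff_dvd hP (Nat.factorial_ne_zero _)]
  intro p
  rw [Nat.factorization_prod hne, Finsupp.finsetSum_apply]
  by_cases hp : p.Prime
  swap
  · rw [Finset.sum_eq_zero]
    · exact Nat.zero_le _
    · intro i _
      exact Nat.factorization_eq_zero_of_not_prime _ hp
  by_cases hex : ∃ i ∈ S, p ∣ n + i
  swap
  · rw [Finset.sum_eq_zero]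
    · exact Nat.zero_le _
    · intro i hi
      exact Nat.factorization_eq_zero_of_not_dvd fun h => hex ⟨i, hT hi, h⟩
  obtain ⟨hgS, hgmax⟩ := hg p hp hex
  have hgT := hTg p hp hex
  have hgk : g p < k := mem_range.1 (hS hgS)
  have hsub : T ⊆ (range k).erase (g p) := by
    intro i hi
    rw [mem_erase]
    exact ⟨fun h => hgT (h ▸ hi), hS (hT hi)⟩
  have hne' : ∀ i ∈ (range k).erase (g p), Int.natAbs ((i : ℤ) - g p) ≠ 0 := by
    intro i hi
    rw [mem_erase] at hi
    omega
  calc ∑ i ∈ T, (n + i).factorization p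
      ≤ ∑ i ∈ T, (Int.natAbs ((i : ℤ) - g p)).factorization p := by
        apply Finset.sum_le_sum
        intro i hi
        have h1 := hgmax i (hT hi)
        have hd1 : p ^ (n + i).factorization p ∣ n + i := Nat.ordProj_dvd _ _
        have hd2 : p ^ (n + i).factorization p ∣ n + g p :=
          (pow_dvd_pow p h1).trans (Nat.ordProj_dvd _ _)
        have hd3 : p ^ (n + i).factorization p ∣ Int.natAbs ((i : ℤ) - g p) := by
          have e1 : ((p ^ (n + i).factorization p : ℕ) : ℤ) ∣ ((n + i : ℕ) : ℤ) - ((n + g p : ℕ) : ℤ) :=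
            dvd_sub (Int.natCast_dvd_natCast.2 hd1) (Int.natCast_dvd_natCast.2 hd2)
          have e2 : ((n + i : ℕ) : ℤ) - ((n + g p : ℕ) : ℤ) = (i : ℤ) - g p := by push_cast; ring
          rw [e2] at e1
          exact Int.natCast_dvd.1 e1
        exact (hp.pow_dvd_iff_le_factorization (hne' i (hsub hi))).1 hd3
    _ ≤ ∑ i ∈ (range k).erase (g p), (Int.natAbs ((i : ℤ) - g p)).factorization p :=
        Finset.sum_le_sum_of_subset hsub
    _ = (∏ i ∈ (range k).erase (g p), Int.natAbs ((i : ℤ) - g p)).factorization p := by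
        rw [Nat.factorization_prod hne', Finsupp.finsetSum_apply]
    _ ≤ (k - 1).factorial.factorization p :=
        (Nat.factorization_le_iff_dvd (Finset.prod_ne_zero_iff.2 hne') (Nat.factorial_ne_zero _)).2
          (prod_dist_dvd k (g p) hgk) p

/-- Every set of members of the block is almost as small as its set of prime divisors. -/
theorem card_sub_le (n k : ℕ) (hn : 2 ≤ n) (S : Finset ℕ) (hS : S ⊆ range k) :
    n ^ (S.card - (S.biUnion fun i => (n + i).primeFactors).card) ≤ (k - 1).factorial := by
  classical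
  set P := S.biUnion fun i => (n + i).primeFactors with hPdef
  have hmem : ∀ p, p ∈ P ↔ p.Prime ∧ ∃ i ∈ S, p ∣ n + i := by
    intro p
    rw [hPdef, mem_biUnion]
    constructor
    · rintro ⟨i, hi, hp⟩
      exact ⟨Nat.prime_of_mem_primeFactors hp, i, hi, Nat.dvd_of_mem_primeFactors hp⟩
    · rintro ⟨hp, i, hi, hd⟩
      exact ⟨i, hi, Nat.mem_primeFactors.2 ⟨hp, hd, by omega⟩⟩
  have hex : ∀ p : ℕ, ∃ j, (p.Prime → (∃ i ∈ S, p ∣ n + i) →
      j ∈ S ∧ ∀ i ∈ S, (n + i).factorization p ≤ (n + j).factorization p) := by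
    intro p
    by_cases h : ∃ i ∈ S, p ∣ n + i
    · obtain ⟨i0, hi0, _⟩ := h
      obtain ⟨j, hj, hmax⟩ := Finset.exists_max_image S (fun i => (n + i).factorization p) ⟨i0, hi0⟩
      exact ⟨j, fun _ _ => ⟨hj, hmax⟩⟩
    · exact ⟨0, fun _ h' => absurd h' h⟩
  choose g hg using hex
  set T := S \ P.image g with hTdef
  have hcard : S.card - P.card ≤ T.card := by
    rw [hTdef]
    have h1 := Finset.le_card_sdiff (P.image g) S
    have h2 : (P.image g).card ≤ P.card := card_image_le
    omega
  have hdvd : ∏ i ∈ T, (n + i) ∣ (k - 1).factorial := by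
    refine prod_dvd_factorial n k (by omega) S hS g hg T sdiff_subset ?_
    intro p hp hex'
    rw [hTdef, mem_sdiff]
    rintro ⟨_, h⟩
    exact h (mem_image_of_mem g ((hmem p).2 ⟨hp, hex'⟩))
  have hle := Nat.le_of_dvd (Nat.factorial_pos _) hdvd
  calc n ^ (S.card - P.card) ≤ n ^ T.card := Nat.pow_le_pow_right (by omega) hcard
    _ = ∏ _i ∈ T, n := by rw [prod_const]
    _ ≤ ∏ i ∈ T, (n + i) := Finset.prod_le_prod' fun i _ => by omega
    _ ≤ _ := hle

/-- The deficiency version of Grimm's assertion, valid for all blocks. -/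
theorem deficiency (n k D : ℕ) (hn : 2 ≤ n) (hD : (k - 1).factorial < n ^ (D + 1)) :
    ∃ T ⊆ range k, k ≤ T.card + D ∧ ∃ f : ℕ → ℕ,
      (∀ i ∈ T, (f i).Prime ∧ f i ∣ n + i) ∧ ∀ i ∈ T, ∀ j ∈ T, f i = f j → i = j := by
  classical
  -- Hall's theorem with D dummy elements
  let t : Fin k → Finset (ℕ ⊕ Fin D) := fun i =>
    ((n + i.1).primeFactors.map Function.Embedding.inl) ∪ (Finset.univ.map Function.Embedding.inr)
  have hall : ∀ s : Finset (Fin k), s.card ≤ (s.biUnion t).card := by
    intro s
    by_cases hs : s.Nonempty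
    swap
    · rw [not_nonempty_iff_eq_empty.1 hs]; simp
    have hsub : s.biUnion t = ((s.biUnion fun i => (n + i.1).primeFactors).map
        Function.Embedding.inl) ∪ (Finset.univ.map Function.Embedding.inr) := by
      ext a
      simp only [t, mem_biUnion, mem_union, mem_map, mem_univ, true_and]
      constructor
      · rintro ⟨i, hi, h | h⟩
        · obtain ⟨b, hb, hba⟩ := h
          exact Or.inl ⟨b, ⟨i, hi, hb⟩, hba⟩
        · exact Or.inr h
      · rintro (⟨b, ⟨i, hi, hb⟩, hba⟩ | h)
        · exact ⟨i, hi, Or.inl ⟨b, hb, hba⟩⟩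
        · obtain ⟨i, hi⟩ := hs
          exact ⟨i, hi, Or.inr h⟩
    have hdisj : Disjoint ((s.biUnion fun i => (n + i.1).primeFactors).map
        (Function.Embedding.inl : ℕ ↪ ℕ ⊕ Fin D)) (Finset.univ.map Function.Embedding.inr) := by
      rw [disjoint_left]
      intro a ha hb
      simp only [mem_map, mem_univ, true_and] at ha hb
      obtain ⟨b, _, rfl⟩ := ha
      obtain ⟨c, hc⟩ := hb
      simp at hc
    rw [hsub, card_union_of_disjoint hdisj, card_map, card_map, card_univ, Fintype.card_fin]
    have h1 := card_sub_le n k hn (s.map Fin.valEmbedding) (by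
      intro i hi
      simp only [mem_map, Fin.valEmbedding_apply] at hi
      obtain ⟨a, _, rfl⟩ := hi
      exact mem_range.2 a.2)
    have h2 : ((s.map Fin.valEmbedding).biUnion fun i => (n + i).primeFactors) =
        s.biUnion fun i => (n + i.1).primeFactors := by
      ext a
      simp
    rw [h2, card_map] at h1
    by_contra hcon
    push Not at hcon
    have h3 : D + 1 ≤ s.card - (s.biUnion fun i => (n + i.1).primeFactors).card := by omega
    have h4 : n ^ (D + 1) ≤ (k - 1).factorial :=
      (Nat.pow_le_pow_right (by omega) h3).trans h1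
    omega
  obtain ⟨h, hinj, hmem⟩ := (Finset.all_card_le_biUnion_card_iff_exists_injective t).1 hall
  -- the good indices
  let T0 : Finset (Fin k) := Finset.univ.filter fun i => (h i).isLeft
  have hbad : (Finset.univ.filter fun i => ¬ (h i).isLeft).card ≤ D := by
    have : (Finset.univ.filter fun i => ¬ (h i).isLeft).card ≤
        (Finset.univ.map (Function.Embedding.inr : Fin D ↪ ℕ ⊕ Fin D)).card := by
      apply card_le_card_of_injOn h
      · intro i hi
        simp only [coe_filter, mem_univ, true_and, Set.mem_ofPred_eq] at hi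
        cases hc : h i with
        | inl a => rw [hc] at hi; simp at hi
        | inr b => simp
      · exact hinj.injOn
    simpa using this
  have hT0 : k ≤ T0.card + D := by
    have h5 : T0.card + (Finset.univ.filter fun i => ¬ (h i).isLeft).card = k := by
      have h6 := Finset.card_filter_add_card_filter_not (s := (Finset.univ : Finset (Fin k)))
        (fun i => ((h i).isLeft : Prop))
      rw [card_univ, Fintype.card_fin] at h6
      convert h6
    omega
  refine ⟨T0.map Fin.valEmbedding, ?_, by rwa [card_map], ?_⟩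
  · intro i hi
    simp only [mem_map, Fin.valEmbedding_apply] at hi
    obtain ⟨a, _, rfl⟩ := hi
    exact mem_range.2 a.2
  · refine ⟨fun i => if hi : i < k then ((h ⟨i, hi⟩).getLeft?).getD 0 else 0, ?_, ?_⟩
    · intro i hi
      simp only [mem_map, Fin.valEmbedding_apply] at hi
      obtain ⟨a, ha, rfl⟩ := hi
      simp only [T0, mem_filter, mem_univ, true_and] at ha
      obtain ⟨b, hb⟩ := Sum.isLeft_iff.1 ha
      have hm := hmem a
      rw [hb] at hm
      simp only [t, mem_union, mem_map, mem_univ, true_and, Function.Embedding.inl_apply,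
        Sum.inl.injEq, exists_eq_right, Function.Embedding.inr_apply, reduceCtorEq, exists_false,
        or_false] at hm
      simp only [a.2, dite_true, Fin.eta, hb, Sum.getLeft?_inl, Option.getD_some]
      exact ⟨Nat.prime_of_mem_primeFactors hm, Nat.dvd_of_mem_primeFactors hm⟩
    · intro i hi j hj hij
      simp only [mem_map, Fin.valEmbedding_apply] at hi hj
      obtain ⟨a, ha, rfl⟩ := hi
      obtain ⟨b, hb, rfl⟩ := hj
      simp only [T0, mem_filter, mem_univ, true_and] at ha hb
      obtain ⟨a', ha'⟩ := Sum.isLeft_iff.1 ha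
      obtain ⟨b', hb'⟩ := Sum.isLeft_iff.1 hb
      simp only [a.2, b.2, dite_true, Fin.eta, ha', hb', Sum.getLeft?_inl, Option.getD_some] at hij
      have : h a = h b := by rw [ha', hb', hij]
      rw [hinj this]

end Pool.Agent.Helper32.Grimm
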