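import Pool.Agent.Helper32.Grimm.Defs
import Pool.Agent.Helper24.Mertens

/-!
# Rankin's bound for smooth numbers
-/

set_option autoImplicit false

namespace Pool.Agent.Helper32.Grimm

open Finset Nat

/-- `n ↦ n^{-s}` as a monoid homomorphism -/
noncomputable def rpowHom (s : ℝ) : ℕ →* ℝ where
  toFun n := (n : ℝ) ^ (-s)
  map_one' := by simp
  map_mul' a b := by
    rw [Nat.cast_mul, Real.mul_rpow (Nat.cast_nonneg a) (Nat.cast_nonneg b)]

theorem rpowHom_apply (s : ℝ) (n : ℕ) : rpowHom s n = (n : ℝ) ^ (-s) := rfl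

theorem inv_one_sub_le {t : ℝ} (h0 : 0 ≤ t) (h1 : t ≤ 3 / 4) : (1 - t)⁻¹ ≤ Real.exp (4 * t) := by
  have h2 : (1 - t)⁻¹ = t / (1 - t) + 1 := by
    have : (1 - t) ≠ 0 := by linarith
    field_simp
    ring
  rw [h2]
  refine (Real.add_one_le_exp _).trans ?_
  rw [Real.exp_le_exp, div_le_iff₀ (by linarith)]
  nlinarith

theorem prime_rpow_le {p : ℕ} (hp : p.Prime) {s : ℝ} (hs : 1 / 2 ≤ s) :
    (p : ℝ) ^ (-s) ≤ 3 / 4 := by
  have h2 : (2 : ℝ) ≤ p := by exact_mod_cast hp.two_le
  have h4 : (4 / 3 : ℝ) ≤ (p : ℝ) ^ s := by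
    calc (4 / 3 : ℝ) ≤ (2 : ℝ) ^ (1 / 2 : ℝ) := by
          rw [← Real.sqrt_eq_rpow]
          apply Real.le_sqrt_of_sq_le
          norm_num
      _ ≤ (p : ℝ) ^ (1 / 2 : ℝ) := Real.rpow_le_rpow (by norm_num) h2 (by norm_num)
      _ ≤ (p : ℝ) ^ s := Real.rpow_le_rpow_of_exponent_le (by linarith) hs
  rw [Real.rpow_neg (by linarith)]
  calc ((p : ℝ) ^ s)⁻¹ ≤ (4 / 3 : ℝ)⁻¹ := by gcongr
    _ = 3 / 4 := by norm_num

/-- Rankin's inequality -/
theorem rankin (X K : ℕ) (hX : 1 ≤ X) {s : ℝ} (hs : 1 / 2 ≤ s) :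
    ((Nat.smoothNumbersUpTo X K).card : ℝ) ≤
      (X : ℝ) ^ s * Real.exp (4 * ∑ p ∈ Nat.primesBelow K, (p : ℝ) ^ (-s)) := by
  have hs0 : s ≠ 0 := by linarith
  have hXr : (1 : ℝ) ≤ X := by exact_mod_cast hX
  obtain ⟨hsum, hhas⟩ := EulerProduct.summable_and_hasSum_smoothNumbers_prod_primesBelow_geometric
    (f := rpowHom s) (by
      intro p hp
      rw [rpowHom_apply, Real.norm_eq_abs, abs_of_nonneg (by positivity)]
      have := prime_rpow_le hp hs
      linarith) K
  -- the finite sum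
  have h1 : ∑ m ∈ Nat.smoothNumbersUpTo X K, (m : ℝ) ^ (-s) ≤
      ∏ p ∈ Nat.primesBelow K, (1 - (p : ℝ) ^ (-s))⁻¹ := by
    have h2 : ∑ m ∈ Nat.smoothNumbersUpTo X K, (m : ℝ) ^ (-s) =
        ∑ m ∈ (Nat.smoothNumbersUpTo X K).attach.image
          (fun m => (⟨m.1, (Nat.mem_smoothNumbersUpTo.1 m.2).2⟩ : Nat.smoothNumbers K)),
          rpowHom s m := by
      classical
      rw [Finset.sum_image]
      · rw [← Finset.sum_attach]
        rfl
      · intro a _ b _ hab
        simp only [Subtype.mk.injEq] at hab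
        exact Subtype.ext hab
    rw [h2]
    refine sum_le_hasSum _ (fun m _ => ?_) hhas
    rw [rpowHom_apply]
    positivity
  have h3 : ∏ p ∈ Nat.primesBelow K, (1 - (p : ℝ) ^ (-s))⁻¹ ≤
      Real.exp (4 * ∑ p ∈ Nat.primesBelow K, (p : ℝ) ^ (-s)) := by
    rw [Finset.mul_sum, Real.exp_sum]
    apply Finset.prod_le_prod
    · intro p hp
      have := prime_rpow_le (Nat.prime_of_mem_primesBelow hp) hs
      rw [inv_nonneg]
      linarith
    · intro p hp
      exact inv_one_sub_le (by positivity) (prime_rpow_le (Nat.prime_of_mem_primesBelow hp) hs)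
  have h4 : ((Nat.smoothNumbersUpTo X K).card : ℝ) ≤
      (X : ℝ) ^ s * ∑ m ∈ Nat.smoothNumbersUpTo X K, (m : ℝ) ^ (-s) := by
    rw [Finset.mul_sum, Finset.card_eq_sum_ones, Nat.cast_sum]
    apply Finset.sum_le_sum
    intro m hm
    obtain ⟨hmX, hm1⟩ := Nat.mem_smoothNumbersUpTo.1 hm
    have hm0 : m ≠ 0 := hm1.1
    have hmr : (0 : ℝ) < m := by exact_mod_cast Nat.pos_of_ne_zero hm0
    rw [Real.rpow_neg hmr.le, ← div_eq_mul_inv, Nat.cast_one, le_div_iff₀ (by positivity), one_mul]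
    exact Real.rpow_le_rpow hmr.le (by exact_mod_cast hmX) (by linarith)
  refine h4.trans (mul_le_mul_of_nonneg_left (h1.trans h3) (by positivity))

/-- the form used: `Ψ(X, K) ≤ X exp(-A log X / log K + 4 e^A (log log K + 3.4))` -/
theorem smooth_le (X K : ℕ) (hX : 1 ≤ X) (hK : 2 ≤ K) {A : ℝ} (hA : 0 ≤ A)
    (hAK : A ≤ Real.log K / 2) :
    ((Nat.smoothNumbersUpTo X K).card : ℝ) ≤
      X * Real.exp (-(A * Real.log X / Real.log K) +
        4 * (Real.exp A * (Real.log (Real.log K) + 3.4))) := by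
  have hKr : (2 : ℝ) ≤ K := by exact_mod_cast hK
  have hlK : 0 < Real.log K := Real.log_pos (by linarith)
  have hXr : (1 : ℝ) ≤ X := by exact_mod_cast hX
  set s : ℝ := 1 - A / Real.log K with hs
  have hs2 : 1 / 2 ≤ s := by
    have : A / Real.log K ≤ 1 / 2 := by
      rw [div_le_iff₀ hlK]; linarith
    rw [hs]; linarith
  have h1 := rankin X K hX hs2
  refine h1.trans ?_
  have h2 : (X : ℝ) ^ s = X * Real.exp (-(A * Real.log X / Real.log K)) := by
    rw [Real.rpow_def_of_pos (by linarith)]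
    nth_rewrite 2 [← Real.exp_log (by linarith : (0 : ℝ) < X)]
    rw [← Real.exp_add]
    congr 1
    rw [hs]
    ring
  rw [h2, Real.exp_add, ← mul_assoc]
  apply mul_le_mul_of_nonneg_left _ (by positivity)
  rw [Real.exp_le_exp]
  apply mul_le_mul_of_nonneg_left _ (by norm_num)
  calc ∑ p ∈ Nat.primesBelow K, (p : ℝ) ^ (-s)
      ≤ ∑ p ∈ Nat.primesBelow K, Real.exp A * (1 / (p : ℝ)) := by
        apply Finset.sum_le_sum
        intro p hp
        have hp' := Nat.prime_of_mem_primesBelow hp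
        have hpK := Nat.lt_of_mem_primesBelow hp
        have hp2 : (2 : ℝ) ≤ p := by exact_mod_cast hp'.two_le
        have hlp : 0 ≤ Real.log p := Real.log_nonneg (by linarith)
        have hlpK : Real.log p ≤ Real.log K := Real.log_le_log (by linarith) (by exact_mod_cast hpK.le)
        rw [Real.rpow_def_of_pos (by linarith)]
        have h5 : (1 / (p : ℝ)) = Real.exp (-Real.log p) := by
          rw [Real.exp_neg, Real.exp_log (by linarith), one_div]
        rw [h5, ← Real.exp_add, Real.exp_le_exp, hs]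
        have h6 : Real.log p * -(1 - A / Real.log K) = A * (Real.log p / Real.log K) + -Real.log p := by
          ring
        rw [h6]
        have h7 : Real.log p / Real.log K ≤ 1 := by
          rw [div_le_one hlK]; exact hlpK
        nlinarith
    _ = Real.exp A * ∑ p ∈ Nat.primesBelow K, 1 / (p : ℝ) := by rw [Finset.mul_sum]
    _ ≤ Real.exp A * (Real.log (Real.log K) + 3.4) := by
        apply mul_le_mul_of_nonneg_left _ (Real.exp_pos A).le
        refine le_trans ?_ (Helper24.sum_inv_primes_le K hK)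
        apply Finset.sum_le_sum_of_subset_of_nonneg
        · intro p hp
          rw [Nat.mem_primesLE]
          exact ⟨(Nat.lt_of_mem_primesBelow hp).le, Nat.prime_of_mem_primesBelow hp⟩
        · intro p _ _
          positivity

end Pool.Agent.Helper32.Grimm
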